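import Mathlib

/-!
# Self-coverings up to homotopy, classifying spaces, finite domination
-/

set_option autoImplicit false

namespace Pool.Agent.H350R3.Klein

open Topology Set

universe u v w

/-- A space is *finitely dominated* if it is a homotopy retract of a finite CW complex. -/
def FinitelyDominated (Y : Type u) [TopologicalSpace Y] : Prop :=
  ∃ (K : Type v) (_ : TopologicalSpace K) (_ : T2Space K) (_ : CWComplex (univ : Set K)),
    CWComplex.Finite (univ : Set K) ∧
      ∃ (i : C(Y, K)) (r : C(K, Y)), (r.comp i).Homotopic (ContinuousMap.id Y)

/-- `Y` is an Eilenberg-MacLane space `K(Q, 1)`: it is the quotient of a contractible space `E` by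
a free, properly discontinuous (covering space) action of the group `Q`. -/
def IsEilenbergMacLane (Q : Type v) [Group Q] (Y : Type u) [TopologicalSpace Y] : Prop :=
  ∃ (E : Type w) (_ : TopologicalSpace E) (_ : MulAction Q E) (p : E → Y),
    ContractibleSpace E ∧ IsQuotientCoveringMap p Q

/-- The data `X`, `q : X' → X`, `h : X → X'` of the problem: `X` is a connected CW complex with a
base point `x`, `q` is a finite covering of degree `> 1`, and `h` is a homotopy equivalence which
preserves base points, where the base point of `X'` is `h x`, lying over `x`. -/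
structure SelfCovering where
  X : Type
  [top : TopologicalSpace X]
  [t2 : T2Space X]
  [conn : PathConnectedSpace X]
  [cw : CWComplex (univ : Set X)]
  X' : Type
  [top' : TopologicalSpace X']
  q : C(X', X)
  isCovering : IsCoveringMap q
  degree : ℕ
  one_lt_degree : 1 < degree
  card_fiber : ∀ z : X, Nat.card (q ⁻¹' {z}) = degree
  h : ContinuousMap.HomotopyEquiv X X'
  x : X
  q_h_x : q (h x) = x

namespace SelfCovering

attribute [instance] top t2 conn cw top'

variable (S : SelfCovering)

/-- The fundamental group of `X`. -/
abbrev Pi1 : Type := FundamentalGroup S.X S.x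

/-- The endomorphism `h_# = (q ∘ h)_#` of the fundamental group. -/
noncomputable def hsharp : S.Pi1 →* S.Pi1 :=
  FundamentalGroup.mapOfEq (S.q.comp S.h.toFun) S.q_h_x

/-- The subgroup `G = ⋂_{k ≥ 1} im (h_#)^k`. -/
noncomputable def G : Subgroup S.Pi1 :=
  ⨅ k : ℕ, MonoidHom.range ((show Monoid.End S.Pi1 from S.hsharp) ^ (k + 1))

end SelfCovering

end Pool.Agent.H350R3.Klein
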