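import Mathlib
import Pool.Agent.Helper82.BorsukUlam

/-!
# Classifying spaces of groups with 2-torsion seen by a sign are not dominated by compact spaces
-/

set_option autoImplicit false

namespace Pool.Agent.H350R3.Klein

open Topology Set Filter
open scoped unitInterval

section oddmap

variable {Q E : Type*} [Group Q] [TopologicalSpace E] [MulAction Q E] [ContinuousConstSMul Q E]

theorem exists_odd [ContractibleSpace E] (s : Q) (hs : s * s = 1) (m : ℕ) :
    ∃ g : (Fin (m + 1) → ℝ) → E, ContinuousOn g {0}ᶜ ∧ ∀ x, x ≠ 0 → g (-x) = s • g x := by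
  obtain ⟨c, ⟨H⟩⟩ := (contractible_iff_id_nullhomotopic E).mp inferInstance
  have hss : ∀ e : E, s • s • e = e := fun e => by rw [← mul_smul, hs, one_smul]
  induction m with
  | zero =>
    refine ⟨fun x => if 0 < x 0 then c else s • c, ?_, ?_⟩
    · intro x hx
      have hx0 : x 0 ≠ 0 := by
        intro h
        apply hx
        ext i
        have hi : i = 0 := Fin.ext (by have := i.2; simp only [Fin.val_zero]; omega)
        rw [hi, h]; rfl
      apply ContinuousAt.continuousWithinAt
      have hc0 : Continuous (fun x : Fin (0 + 1) → ℝ => x 0) := continuous_apply 0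
      rcases lt_or_gt_of_ne hx0 with h | h
      · have : ∀ᶠ y : Fin (0 + 1) → ℝ in 𝓝 x, y 0 < 0 := hc0.continuousAt.eventually_lt_const h
        refine (continuousAt_const (y := s • c)).congr ?_
        filter_upwards [this] with y hy
        rw [if_neg (not_lt.mpr hy.le)]
      · have : ∀ᶠ y : Fin (0 + 1) → ℝ in 𝓝 x, 0 < y 0 := hc0.continuousAt.eventually_const_lt h
        refine (continuousAt_const (y := c)).congr ?_
        filter_upwards [this] with y hy
        rw [if_pos hy]
    · intro x hx
      have hx0 : x 0 ≠ 0 := by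
        intro h
        apply hx
        ext i
        have hi : i = 0 := Fin.ext (by have := i.2; simp only [Fin.val_zero]; omega)
        rw [hi, h]; rfl
      rcases lt_or_gt_of_ne hx0 with h | h
      · have h1 : 0 < (-x) 0 := by simpa using h
        have h2 : ¬ 0 < x 0 := not_lt.mpr h.le
        simp only [h1, h2, if_true, if_false, hss]
      · have h1 : ¬ 0 < (-x) 0 := by simpa using h.le
        simp only [h1, h, if_true, if_false]
  | succ m ih =>
    obtain ⟨g, hg, hodd⟩ := ih
    let X : (Fin (m + 1 + 1) → ℝ) → (Fin (m + 1) → ℝ) := fun y => Fin.tail y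
    have hXc : Continuous X := by
      refine continuous_pi fun i => ?_
      exact continuous_apply _
    have hXneg : ∀ y, X (-y) = - X y := fun y => rfl
    have hX0 : ∀ y, y ≠ 0 → X y = 0 → y 0 ≠ 0 := by
      intro y hy hX h0
      apply hy
      ext i
      refine Fin.cases h0 (fun j => ?_) i
      exact congrFun hX j
    let τ : (Fin (m + 1 + 1) → ℝ) → I := fun y => Set.projIcc 0 1 zero_le_one (|y 0| / ‖X y‖)
    have hτneg : ∀ y, τ (-y) = τ y := by
      intro y
      simp only [τ, hXneg, norm_neg, Pi.neg_apply, abs_neg]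
    classical
    let A : (Fin (m + 1 + 1) → ℝ) → E := fun y => if X y = 0 then c else H (τ y, g (X y))
    have hy0c : Continuous (fun y : Fin (m + 1 + 1) → ℝ => y 0) := continuous_apply 0
    have hAc : ∀ y, y ≠ 0 → ContinuousAt A y := by
      intro y hy
      by_cases hX : X y = 0
      · have h0 := hX0 y hy hX
        have hlt : ‖X y‖ < |y 0| := by rw [hX, norm_zero]; exact abs_pos.mpr h0
        have hev : ∀ᶠ z in 𝓝 y, ‖X z‖ < |z 0| :=
          hXc.norm.continuousAt.eventually_lt hy0c.abs.continuousAt hlt
        refine (continuousAt_const (y := c)).congr ?_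
        filter_upwards [hev] with z hz
        simp only [A]
        split_ifs with h
        · rfl
        · have h1 : 1 ≤ |z 0| / ‖X z‖ := by
            rw [one_le_div (norm_pos_iff.mpr h)]; exact hz.le
          have : τ z = 1 := Set.projIcc_of_right_le _ h1
          rw [this, H.apply_one]; rfl
      · have hev : ∀ᶠ z in 𝓝 y, X z ≠ 0 := hXc.continuousAt.eventually_ne hX
        have h1 : ContinuousAt (fun z => H (τ z, g (X z))) y := by
          have hg1 : ContinuousAt g (X y) := hg.continuousAt (isOpen_compl_singleton.mem_nhds hX)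
          have hg2 : ContinuousAt (fun z => g (X z)) y :=
            ContinuousAt.comp (f := X) (g := g) hg1 hXc.continuousAt
          have hτ : ContinuousAt τ y := by
            refine continuous_projIcc.continuousAt.comp ?_
            exact hy0c.abs.continuousAt.div hXc.norm.continuousAt (norm_ne_zero_iff.mpr hX)
          exact H.continuous.continuousAt.comp (hτ.prodMk hg2)
        refine h1.congr ?_
        filter_upwards [hev] with z hz
        simp only [A]
        rw [if_neg hz]
    have hAzero : ∀ y, y ≠ 0 → y 0 = 0 → A y = g (X y) := by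
      intro y hy h0
      have hX : X y ≠ 0 := fun h => hX0 y hy h h0
      have hτ : τ y = 0 := by
        refine Set.projIcc_of_le_left _ ?_
        rw [h0, abs_zero, zero_div]
      simp only [A]
      rw [if_neg hX, hτ, H.apply_zero]; rfl
    have hneg0 : ∀ y : Fin (m + 1 + 1) → ℝ, y ≠ 0 → -y ≠ 0 := fun y hy => neg_ne_zero.mpr hy
    have hAneg : ∀ y, y ≠ 0 → y 0 = 0 → A (-y) = s • A y := by
      intro y hy h0
      have hX : X y ≠ 0 := fun h => hX0 y hy h h0
      rw [hAzero y hy h0, hAzero (-y) (hneg0 y hy) (by simpa using h0), hXneg, hodd _ hX]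
    refine ⟨fun y => if 0 ≤ y 0 then A y else s • A (-y), ?_, ?_⟩
    · intro y hy
      apply ContinuousAt.continuousWithinAt
      have hA1 := hAc y hy
      have hA2 : ContinuousAt (fun z => s • A (-z)) y := by
        have h1 : ContinuousAt A (-y) := hAc (-y) (hneg0 y hy)
        have h2 : ContinuousAt (fun z => A (-z)) y :=
          ContinuousAt.comp (f := fun z : Fin (m + 1 + 1) → ℝ => -z) (g := A) h1
            continuous_neg.continuousAt
        exact h2.const_smul s
      rcases lt_trichotomy (y 0) 0 with h | h | h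
      · have : ∀ᶠ z : Fin (m + 1 + 1) → ℝ in 𝓝 y, z 0 < 0 :=
          hy0c.continuousAt.eventually_lt_const h
        refine hA2.congr ?_
        filter_upwards [this] with z hz
        rw [if_neg (not_le.mpr hz)]
      · have heq : A y = s • A (-y) := by
          rw [hAneg y hy h, hss]
        have h3 : Tendsto (fun z => s • A (-z)) (𝓝 y) (𝓝 (A y)) := by
          have := hA2.tendsto
          rwa [← heq] at this
        have h4 : Tendsto (fun z : Fin (m + 1 + 1) → ℝ => if 0 ≤ z 0 then A z else s • A (-z))
            (𝓝 y) (𝓝 (A y)) := Tendsto.if' hA1.tendsto h3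
        show Tendsto _ _ _
        simp only [h, le_refl, if_true]
        exact h4
      · have : ∀ᶠ z : Fin (m + 1 + 1) → ℝ in 𝓝 y, 0 < z 0 :=
          hy0c.continuousAt.eventually_const_lt h
        refine hA1.congr ?_
        filter_upwards [this] with z hz
        rw [if_pos hz.le]
    · intro y hy
      rcases lt_trichotomy (y 0) 0 with h | h | h
      · have h1 : 0 ≤ (-y) 0 := by simpa using h.le
        have h2 : ¬ 0 ≤ y 0 := not_le.mpr h
        simp only [h1, h2, if_true, if_false, hss]
      · have h1 : 0 ≤ (-y) 0 := by simp [h]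
        have h2 : 0 ≤ y 0 := h.ge
        simp only [h1, h2, if_true]
        exact hAneg y hy h
      · have h1 : ¬ 0 ≤ (-y) 0 := by simpa using h
        have h2 : 0 ≤ y 0 := h.le
        simp only [h1, h2, if_true, if_false, neg_neg]

end oddmap

section sign

variable {Q E Y : Type*} [Group Q] [TopologicalSpace E] [TopologicalSpace Y] [MulAction Q E]
  {p : E → Y}

/-- a locally constant equivariant sign near an orbit -/
theorem exists_sign (hp : IsQuotientCoveringMap p Q) (w : Q →* ℤˣ) (e₀ : E) :
    ∃ (U : Set E) (ε : E → ℝ), IsOpen U ∧ e₀ ∈ U ∧ (∀ g : Q, ∀ e ∈ U, ε (g • e) = ((w g : ℤ) : ℝ)) := by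
  obtain ⟨U, hU, hd⟩ := hp.disjoint e₀
  have := hp.toContinuousConstSMul
  have := hp.isCancelSMul
  classical
  refine ⟨interior U, fun e => if h : ∃ g : Q, ∃ u ∈ interior U, e = g • u then
    ((w h.choose : ℤ) : ℝ) else 0, isOpen_interior, mem_interior_iff_mem_nhds.mpr hU, ?_⟩
  intro g e he
  have hex : ∃ g' : Q, ∃ u ∈ interior U, g • e = g' • u := ⟨g, e, he, rfl⟩
  simp only [dif_pos hex]
  obtain ⟨u, hu, h1⟩ := hex.choose_spec
  generalize hex.choose = q at h1 ⊢
  have h2 : (q⁻¹ * g) • e = u := by
    rw [mul_smul, h1, inv_smul_smul]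
  have h3 := hd (q⁻¹ * g) ⟨u, ⟨e, interior_subset he, h2⟩, interior_subset hu⟩
  rw [inv_mul_eq_one] at h3
  rw [h3]

end sign

theorem w_abs (u : ℤˣ) : |((u : ℤ) : ℝ)| = 1 := by
  rcases Int.units_eq_one_or u with h | h <;> simp [h]

/-- **Main lemma.** Let `Q` act on a contractible space `E` by a covering space action with quotient
`Y`. If `Q` has an element `s` with `s² = 1` and a homomorphism to `{±1}` which is `-1` on `s`,
then `Y` is not a homotopy retract of any compact Hausdorff space. -/
theorem not_dominated {Q E Y K : Type*} [Group Q] [TopologicalSpace E] [TopologicalSpace Y]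
    [MulAction Q E] [ContractibleSpace E] [TopologicalSpace K] [CompactSpace K] [T2Space K]
    {p : E → Y} (hp : IsQuotientCoveringMap p Q) (s : Q) (hs : s * s = 1) (w : Q →* ℤˣ)
    (hw : w s = -1) (i : C(Y, K)) (r : C(K, Y)) (h : (r.comp i).Homotopic (ContinuousMap.id Y)) :
    False := by
  have := hp.toContinuousConstSMul
  have cov := hp.isCoveringMap
  -- lift of the homotopy
  obtain ⟨F⟩ := h.symm
  let pc : C(E, Y) := ⟨p, hp.continuous⟩
  let Hh : C(I × E, Y) := (F : C(I × Y, Y)).comp ((ContinuousMap.id I).prodMap pc)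
  have hHh : ∀ t e, Hh (t, e) = F (t, p e) := fun t e => rfl
  have H0 : ∀ a : E, Hh (0, a) = p ((ContinuousMap.id E) a) := by
    intro a
    rw [hHh, F.apply_zero]; rfl
  let L := cov.liftHomotopy Hh (ContinuousMap.id E) H0
  have hL1 : ∀ t e, p (L (t, e)) = F (t, p e) := by
    intro t e
    exact congrFun (cov.liftHomotopy_lifts Hh (ContinuousMap.id E) H0) (t, e)
  have hL0 : ∀ e, L (0, e) = e := fun e => cov.liftHomotopy_zero Hh (ContinuousMap.id E) H0 e
  have hLeq : ∀ (g : Q) (t : I) (e : E), L (t, g • e) = g • L (t, e) := by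
    intro g t e
    have key : (fun te : I × E => g⁻¹ • L (te.1, g • te.2)) = L := by
      rw [cov.eq_liftHomotopy_iff]
      refine ⟨fun a => ?_, ?_, fun a => ?_⟩
      · exact (L.continuous.comp (by fun_prop : Continuous fun x : I => (x, g • a))).const_smul _
      · funext te
        simp only [Function.comp_apply]
        rw [hp.map_smul, hL1, hp.map_smul]; rfl
      · simp only [hL0, inv_smul_smul]; rfl
    have := congrFun key (t, e)
    simp only at this
    rw [← this, smul_inv_smul]
  let θ : E → E := fun e => L (1, e)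
  have hθc : Continuous θ := L.continuous.comp (by fun_prop)
  have hθp : ∀ e, p (θ e) = r (i (p e)) := by
    intro e
    simp only [θ]
    rw [hL1, F.apply_one]; rfl
  have hθs : ∀ (g : Q) e, θ (g • e) = g • θ e := fun g e => hLeq g 1 e
  -- local signs
  choose e₀ he₀ using fun k : K => hp.surjective (r k)
  choose U ε hUo hUm hUε using fun k : K => exists_sign hp w (e₀ k)
  let V : K → Set K := fun k => r ⁻¹' (p '' U k)
  have hVo : ∀ k, IsOpen (V k) := fun k =>
    (cov.isOpenMap _ (hUo k)).preimage r.continuous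
  have hVm : ∀ k, k ∈ V k := fun k => ⟨e₀ k, hUm k, he₀ k⟩
  obtain ⟨t, ht⟩ := isCompact_univ.elim_finite_subcover V hVo
    (fun k _ => mem_iUnion.mpr ⟨k, hVm k⟩)
  let N := t.card
  let idx : Fin N → K := fun j => (t.equivFin.symm j : K)
  have hcov : (univ : Set K) ⊆ ⋃ j : Fin N, V (idx j) := by
    intro k hk
    obtain ⟨k', hk'⟩ := mem_iUnion.mp (ht hk)
    obtain ⟨hk't, hk'V⟩ := mem_iUnion.mp hk'
    refine mem_iUnion.mpr ⟨t.equivFin ⟨k', hk't⟩, ?_⟩
    simp only [idx, Equiv.symm_apply_apply]
    exact hk'V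
  obtain ⟨ρ, hρ⟩ := PartitionOfUnity.exists_isSubordinate isClosed_univ (fun j : Fin N => V (idx j))
    (fun j => hVo _) hcov
  obtain ⟨g, hg, hodd⟩ := exists_odd (E := E) s hs N
  -- the odd map
  let κ : (Fin (N + 1) → ℝ) → K := fun x => i (p (g x))
  let Φ : (Fin (N + 1) → ℝ) → E := fun x => θ (g x)
  let f : (Fin (N + 1) → ℝ) → (Fin N → ℝ) := fun x j => ‖x‖ * (ρ j (κ x) * ε (idx j) (Φ x))
  have hrel : ∀ x, p (Φ x) = r (κ x) := fun x => hθp _
  have hεval : ∀ k e, p e ∈ p '' U k → ∃ q : Q, ∃ u ∈ U k, e = q • u := by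
    rintro k e ⟨u, hu, hpu⟩
    obtain ⟨q, hq⟩ := hp.apply_eq_iff_mem_orbit.mp hpu.symm
    exact ⟨q, u, hu, hq.symm⟩
  have hεabs : ∀ k e, p e ∈ p '' U k → |ε k e| = 1 := by
    intro k e he
    obtain ⟨q, u, hu, rfl⟩ := hεval k e he
    rw [hUε k q u hu, w_abs]
  have hεcont : ∀ k e, p e ∈ p '' U k → ContinuousAt (ε k) e := by
    intro k e he
    obtain ⟨q, u, hu, rfl⟩ := hεval k e he
    have hopen : IsOpen ((fun z => q⁻¹ • z) ⁻¹' U k) := (hUo k).preimage (continuous_const_smul _)
    refine (continuousAt_const (y := ((w q : ℤ) : ℝ))).congr ?_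
    filter_upwards [hopen.mem_nhds (by simpa using hu : q • u ∈ (fun z => q⁻¹ • z) ⁻¹' U k)] with z hz
    have := hUε k q _ hz
    rw [smul_inv_smul] at this
    exact this.symm
  have hεodd : ∀ k e, p e ∈ p '' U k → ε k (s • e) = - ε k e := by
    intro k e he
    obtain ⟨q, u, hu, rfl⟩ := hεval k e he
    rw [← mul_smul, hUε k _ u hu, hUε k _ u hu, map_mul, hw]
    push_cast
    ring
  have hsupp : ∀ j k, ρ j k ≠ 0 → k ∈ V (idx j) := by
    intro j k hk
    exact hρ j (subset_tsupport _ hk)
  have hmemV : ∀ j x, κ x ∈ V (idx j) → p (Φ x) ∈ p '' U (idx j) := by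
    intro j x hx
    rw [hrel]; exact hx
  have hbound : ∀ x j, |f x j| ≤ ‖x‖ := by
    intro x j
    simp only [f]
    rw [abs_mul, abs_norm]
    have h1 : |ρ j (κ x) * ε (idx j) (Φ x)| ≤ 1 := by
      by_cases h0 : ρ j (κ x) = 0
      · rw [h0, zero_mul, abs_zero]; exact zero_le_one
      · rw [abs_mul, hεabs _ _ (hmemV j x (hsupp j _ h0)), mul_one, abs_of_nonneg (ρ.nonneg j _)]
        exact ρ.le_one j _
    calc ‖x‖ * _ ≤ ‖x‖ * 1 := by gcongr
      _ = ‖x‖ := mul_one _
  have hfc : Continuous f := by
    rw [continuous_iff_continuousAt]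
    intro x
    by_cases hx : x = 0
    · subst hx
      have hf0 : f 0 = 0 := by
        funext j
        simp [f]
      rw [ContinuousAt, hf0]
      refine squeeze_zero_norm (a := fun x => ‖x‖) ?_ ?_
      · intro y
        rw [pi_norm_le_iff_of_nonneg (norm_nonneg _)]
        intro j
        exact hbound y j
      · have := (continuous_norm (E := Fin (N + 1) → ℝ)).tendsto 0
        rwa [norm_zero] at this
    · have hgx : ContinuousAt g x := hg.continuousAt (isOpen_compl_singleton.mem_nhds hx)
      have hκ : ContinuousAt κ x :=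
        (i.continuous.comp hp.continuous).continuousAt.comp hgx
      have hΦ : ContinuousAt Φ x := hθc.continuousAt.comp hgx
      rw [continuousAt_pi]
      intro j
      refine continuousAt_id.norm.mul ?_
      by_cases hj : κ x ∈ tsupport (ρ j)
      · have h1 : ContinuousAt (fun x => ρ j (κ x)) x :=
          (ρ j).continuous.continuousAt.comp hκ
        have h2 : ContinuousAt (fun x => ε (idx j) (Φ x)) x :=
          ContinuousAt.comp (f := Φ) (g := ε (idx j))
            (hεcont _ _ (hmemV j x (hρ j hj))) hΦ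
        exact h1.mul h2
      · have hev : ∀ᶠ y in 𝓝 x, κ y ∈ (tsupport (ρ j))ᶜ :=
          hκ.eventually ((isClosed_tsupport _).isOpen_compl.mem_nhds hj)
        refine (continuousAt_const (y := (0 : ℝ))).congr ?_
        filter_upwards [hev] with y hy
        have : ρ j (κ y) = 0 := by
          by_contra h0
          exact hy (subset_tsupport _ h0)
        rw [this, zero_mul]
  have hfodd : ∀ x, f (-x) = - f x := by
    intro x
    by_cases hx : x = 0
    · subst hx
      funext j
      simp [f]
    · have hgneg := hodd x hx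
      have hκ : κ (-x) = κ x := by
        simp only [κ]
        rw [hgneg, hp.map_smul]
      have hΦ : Φ (-x) = s • Φ x := by
        simp only [Φ]
        rw [hgneg, hθs]
      funext j
      simp only [f, Pi.neg_apply, norm_neg]
      rw [hκ, hΦ]
      by_cases h0 : ρ j (κ x) = 0
      · rw [h0]; ring
      · rw [hεodd _ _ (hmemV j x (hsupp j _ h0))]; ring
  obtain ⟨x, hxK, hx⟩ := Helper82.BorsukUlam.borsuk_ulam N f hfc hfodd
  have hx0 : x ≠ 0 := by
    intro h
    rw [h] at hxK
    simp [Helper82.BorsukUlam.K] at hxK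
  -- some coordinate is nonzero
  have hsum := ρ.sum_eq_one (mem_univ (κ x))
  have : ∃ j, ρ j (κ x) ≠ 0 := by
    by_contra hcon
    push Not at hcon
    rw [finsum_congr hcon, finsum_zero] at hsum
    exact zero_ne_one hsum
  obtain ⟨j, hj⟩ := this
  have h1 := congrFun hx j
  simp only [f, Pi.zero_apply] at h1
  have h2 : |ε (idx j) (Φ x)| = 1 := hεabs _ _ (hmemV j x (hsupp j _ hj))
  have h3 : ε (idx j) (Φ x) ≠ 0 := by
    intro h
    rw [h, abs_zero] at h2
    exact zero_ne_one h2
  rcases mul_eq_zero.mp h1 with h4 | h4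
  · exact hx0 (norm_eq_zero.mp h4)
  · rcases mul_eq_zero.mp h4 with h5 | h5
    · exact hj h5
    · exact h3 h5

end Pool.Agent.H350R3.Klein
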