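import Mathlib

/-!
# The Klein bottle: group, covering by the plane, CW structure
-/

set_option autoImplicit false

namespace Pool.Agent.H350R3.Klein

open Topology Set Filter Metric

/-- The Klein bottle group: pairs `(i, j)` of integers with
`(i, j) * (i', j') = (i + (-1)^j i', j + j')`. -/
@[ext] structure KG where
  i : ℤ
  j : ℤ

namespace KG

/-- `(-1)^j`. -/
def sg (j : ℤ) : ℤ := (Int.negOnePow j : ℤˣ)

theorem sg_add (a b : ℤ) : sg (a + b) = sg a * sg b := by
  simp [sg, Int.negOnePow_add]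

@[simp] theorem sg_zero : sg 0 = 1 := by simp [sg]

theorem sg_mul_self (a : ℤ) : sg a * sg a = 1 := by
  rw [← sg_add]
  simp [sg, Int.negOnePow_even (a + a) ⟨a, rfl⟩]

theorem sg_neg (a : ℤ) : sg (-a) = sg a := by
  simp [sg, Int.negOnePow_neg]

theorem sg_even {a : ℤ} (h : Even a) : sg a = 1 := by
  simp [sg, Int.negOnePow_even a h]

theorem sg_odd {a : ℤ} (h : Odd a) : sg a = -1 := by
  simp [sg, Int.negOnePow_odd a h]

instance : Mul KG := ⟨fun a b => ⟨a.i + sg a.j * b.i, a.j + b.j⟩⟩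
instance : One KG := ⟨⟨0, 0⟩⟩
instance : Inv KG := ⟨fun a => ⟨-(sg a.j * a.i), -a.j⟩⟩

@[simp] theorem mul_i (a b : KG) : (a * b).i = a.i + sg a.j * b.i := rfl
@[simp] theorem mul_j (a b : KG) : (a * b).j = a.j + b.j := rfl
@[simp] theorem one_i : (1 : KG).i = 0 := rfl
@[simp] theorem one_j : (1 : KG).j = 0 := rfl
@[simp] theorem inv_i (a : KG) : (a⁻¹).i = -(sg a.j * a.i) := rfl
@[simp] theorem inv_j (a : KG) : (a⁻¹).j = -a.j := rfl

instance : Group KG := Group.ofLeftAxioms
  (by
    intro a b c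
    ext
    · simp only [mul_i, mul_j, sg_add]; ring
    · simp only [mul_j]; ring)
  (by
    intro a
    ext
    · simp
    · simp)
  (by
    intro a
    ext
    · simp only [mul_i, inv_i, inv_j, sg_neg, one_i]; ring
    · simp)

/-- The action of the Klein bottle group on the plane: `(i, j)` maps `(u, v)` to
`(i + (-1)^j u, v + j)`. -/
instance : SMul KG (ℝ × ℝ) := ⟨fun g e => (g.i + (sg g.j : ℝ) * e.1, e.2 + g.j)⟩

theorem smul_def (g : KG) (e : ℝ × ℝ) : g • e = (g.i + (sg g.j : ℝ) * e.1, e.2 + g.j) := rfl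
@[simp] theorem smul_fst (g : KG) (e : ℝ × ℝ) : (g • e).1 = g.i + (sg g.j : ℝ) * e.1 := rfl
@[simp] theorem smul_snd (g : KG) (e : ℝ × ℝ) : (g • e).2 = e.2 + g.j := rfl

instance : MulAction KG (ℝ × ℝ) where
  one_smul e := by
    ext
    · simp
    · simp
  mul_smul a b e := by
    ext
    · simp only [smul_fst, mul_i, mul_j, sg_add]; push_cast; ring
    · simp only [smul_snd, mul_j]; push_cast; ring

theorem sg_cases (j : ℤ) : sg j = 1 ∨ sg j = -1 := by
  rcases Int.even_or_odd j with h | h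
  · exact Or.inl (sg_even h)
  · exact Or.inr (sg_odd h)

theorem abs_sg (j : ℤ) : |(sg j : ℝ)| = 1 := by
  rcases sg_cases j with h | h <;> simp [h]

instance : ContinuousConstSMul KG (ℝ × ℝ) where
  continuous_const_smul g := by
    show Continuous fun e : ℝ × ℝ => (g.i + (sg g.j : ℝ) * e.1, e.2 + g.j)
    fun_prop

theorem eq_one_of_smul_eq {g : KG} {e : ℝ × ℝ} (h : g • e = e) : g = 1 := by
  have h2 := congrArg Prod.snd h
  have h1 := congrArg Prod.fst h
  simp only [smul_fst, smul_snd] at h1 h2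
  have hj : g.j = 0 := by
    have : (g.j : ℝ) = 0 := by linarith
    exact_mod_cast this
  rw [hj] at h1
  simp only [sg_zero, Int.cast_one, one_mul] at h1
  have hi : g.i = 0 := by
    have : (g.i : ℝ) = 0 := by linarith
    exact_mod_cast this
  ext <;> simp [hi, hj]

instance : IsCancelSMul KG (ℝ × ℝ) where
  right_cancel' g g' e h := by
    have : (g'⁻¹ * g) • e = e := by rw [mul_smul, h, inv_smul_smul]
    have := eq_one_of_smul_eq this
    rw [inv_mul_eq_one] at this
    exact this.symm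

instance : ProperlyDiscontinuousSMul KG (ℝ × ℝ) where
  finite_disjoint_inter_image := by
    intro K L hK hL
    obtain ⟨R, hR⟩ := (hK.union hL).isBounded.exists_norm_le
    obtain ⟨N, hN⟩ := exists_nat_gt (R + R)
    have hfin : (Set.Icc (-(N : ℤ)) N ×ˢ Set.Icc (-(N : ℤ)) N).Finite :=
      (Set.finite_Icc _ _).prod (Set.finite_Icc _ _)
    refine (hfin.image (fun x : ℤ × ℤ => (⟨x.1, x.2⟩ : KG))).subset ?_
    intro g hg
    obtain ⟨_, ⟨e, heK, rfl⟩, heL⟩ := hg
    have h1 := hR e (Or.inl heK)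
    have h2 := hR (g • e) (Or.inr heL)
    rw [Prod.norm_def, max_le_iff] at h1 h2
    simp only [Real.norm_eq_abs, smul_fst, smul_snd] at h1 h2
    have hb1 : |(sg g.j : ℝ) * e.1| ≤ R := by rw [abs_mul, abs_sg, one_mul]; exact h1.1
    refine ⟨(g.i, g.j), ?_, rfl⟩
    rw [abs_le] at h1 h2 hb1
    rw [abs_le] at h1 h2
    simp only [Set.mem_prod, Set.mem_Icc]
    have a1 : (g.i : ℝ) ≤ N := by linarith [h2.1.2, hb1.1]
    have a2 : -(N : ℝ) ≤ g.i := by linarith [h2.1.1, hb1.2]
    have a3 : (g.j : ℝ) ≤ N := by linarith [h2.2.2, h1.2.1]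
    have a4 : -(N : ℝ) ≤ g.j := by linarith [h2.2.1, h1.2.2]
    refine ⟨⟨?_, ?_⟩, ?_, ?_⟩
    · exact_mod_cast a2
    · exact_mod_cast a1
    · exact_mod_cast a4
    · exact_mod_cast a3

end KG

/-- The Klein bottle: the quotient of the plane by the free action of the Klein bottle group. -/
abbrev KB : Type := Quotient (MulAction.orbitRel KG (ℝ × ℝ))

/-- The universal covering of the Klein bottle. -/
def pr : ℝ × ℝ → KB := Quotient.mk _

theorem pr_cov : IsQuotientCoveringMap pr KG :=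
  isQuotientCoveringMap_quotientMk_of_properlyDiscontinuousSMul

instance : T2Space KB := inferInstance

theorem pr_eq {e e' : ℝ × ℝ} : pr e = pr e' ↔ ∃ g : KG, e = g • e' := by
  rw [pr_cov.apply_eq_iff_mem_orbit]
  constructor
  · rintro ⟨g, hg⟩
    exact ⟨g, hg.symm⟩
  · rintro ⟨g, hg⟩
    exact ⟨g, hg.symm⟩

theorem pr_smul (g : KG) (e : ℝ × ℝ) : pr (g • e) = pr e := pr_cov.map_smul g

theorem exists_unit (x : KB) : ∃ u ∈ Icc (0 : ℝ) 1, ∃ v ∈ Icc (0 : ℝ) 1, pr (u, v) = x := by
  obtain ⟨⟨a, b⟩, rfl⟩ := pr_cov.surjective x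
  let g : KG := ⟨0, -⌊b⌋⟩
  let c : ℝ := (g • ((a, b) : ℝ × ℝ)).1
  let g' : KG := ⟨-⌊c⌋, 0⟩
  refine ⟨Int.fract c, ⟨Int.fract_nonneg _, (Int.fract_lt_one _).le⟩, Int.fract b,
    ⟨Int.fract_nonneg _, (Int.fract_lt_one _).le⟩, ?_⟩
  rw [← pr_smul g (a, b), ← pr_smul g' (g • (a, b))]
  congr 1
  ext
  · show Int.fract c = _
    rw [KG.smul_fst]
    simp only [g', KG.sg_zero]
    rw [Int.fract]
    push_cast
    show c - _ = _ + 1 * c
    ring
  · show Int.fract b = _
    rw [KG.smul_snd, KG.smul_snd]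
    simp only [g, g']
    rw [Int.fract]
    push_cast
    ring

theorem pr_continuous : Continuous pr := pr_cov.continuous

instance : CompactSpace KB := by
  constructor
  have h : IsCompact (pr '' (Icc (0 : ℝ) 1 ×ˢ Icc (0 : ℝ) 1)) :=
    (isCompact_Icc.prod isCompact_Icc).image pr_continuous
  convert h
  symm
  rw [Set.eq_univ_iff_forall]
  intro x
  obtain ⟨u, hu, v, hv, h⟩ := exists_unit x
  exact ⟨(u, v), ⟨hu, hv⟩, h⟩

instance : PathConnectedSpace KB := pr_cov.surjective.pathConnectedSpace pr_continuous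

/-! ### Invariants of points -/

/-- the first coordinate is an integer -/
def iu (x : KB) : Prop := ∃ e : ℝ × ℝ, pr e = x ∧ ∃ n : ℤ, e.1 = n
/-- the second coordinate is an integer -/
def iv (x : KB) : Prop := ∃ e : ℝ × ℝ, pr e = x ∧ ∃ n : ℤ, e.2 = n

theorem iu_pr (e : ℝ × ℝ) : iu (pr e) ↔ ∃ n : ℤ, e.1 = n := by
  constructor
  · rintro ⟨e', he', n, hn⟩
    obtain ⟨g, rfl⟩ := pr_eq.mp he'
    rw [KG.smul_fst] at hn
    rcases KG.sg_cases g.j with h | h
    · refine ⟨n - g.i, ?_⟩
      rw [h] at hn; push_cast at hn ⊢; linarith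
    · refine ⟨g.i - n, ?_⟩
      rw [h] at hn; push_cast at hn ⊢; linarith
  · intro h
    exact ⟨e, rfl, h⟩

theorem iv_pr (e : ℝ × ℝ) : iv (pr e) ↔ ∃ n : ℤ, e.2 = n := by
  constructor
  · rintro ⟨e', he', n, hn⟩
    obtain ⟨g, rfl⟩ := pr_eq.mp he'
    rw [KG.smul_snd] at hn
    refine ⟨n - g.j, ?_⟩
    push_cast; linarith
  · intro h
    exact ⟨e, rfl, h⟩

theorem not_int_of_mem {t : ℝ} (h0 : 0 < t) (h1 : t < 1) : ¬ ∃ n : ℤ, t = n := by
  rintro ⟨n, rfl⟩
  have a : (0 : ℤ) < n := by exact_mod_cast h0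
  have b : n < (1 : ℤ) := by exact_mod_cast h1
  omega

theorem pr_inj {u v u' v' : ℝ} (hu : |u - u'| < 1) (hv : |v - v'| < 1)
    (h : pr (u, v) = pr (u', v')) : u = u' ∧ v = v' := by
  obtain ⟨g, hg⟩ := pr_eq.mp h
  have h1 := congrArg Prod.fst hg
  have h2 := congrArg Prod.snd hg
  simp only [KG.smul_fst, KG.smul_snd] at h1 h2
  have hj : g.j = 0 := by
    have : |(g.j : ℝ)| < 1 := by
      have : (g.j : ℝ) = v - v' := by linarith
      rw [this]; exact hv
    have h3 : |g.j| < 1 := by exact_mod_cast this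
    exact Int.abs_lt_one_iff.mp h3
  rw [hj] at h1 h2
  simp only [KG.sg_zero, Int.cast_one, one_mul, Int.cast_zero, add_zero] at h1 h2
  have hi : g.i = 0 := by
    have : |(g.i : ℝ)| < 1 := by
      have : (g.i : ℝ) = u - u' := by linarith
      rw [this]; exact hu
    have h3 : |g.i| < 1 := by exact_mod_cast this
    exact Int.abs_lt_one_iff.mp h3
  rw [hi] at h1
  simp only [Int.cast_zero, zero_add] at h1
  exact ⟨h1, h2⟩

/-! ### CW structure -/

theorem continuousOn_symm_of {X : Type*} [TopologicalSpace X] [T2Space X] {n : ℕ}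
    (e : PartialEquiv (Fin n → ℝ) X) (hs : e.source = ball 0 1)
    (hc : ContinuousOn e (closedBall 0 1)) (hd : Disjoint (e '' sphere 0 1) (e '' ball 0 1)) :
    ContinuousOn e.symm e.target := by
  rw [continuousOn_iff_isClosed]
  intro C hC
  refine ⟨e '' (C ∩ closedBall 0 1), ?_, ?_⟩
  · have : IsCompact (C ∩ closedBall (0 : Fin n → ℝ) 1) := (isCompact_closedBall _ _).inter_left hC
    exact (this.image_of_continuousOn (hc.mono inter_subset_right)).isClosed
  · ext x
    constructor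
    · rintro ⟨h1, h2⟩
      have h3 := e.map_target h2
      refine ⟨⟨e.symm x, ⟨h1, ?_⟩, e.right_inv h2⟩, h2⟩
      rw [hs] at h3
      exact ball_subset_closedBall h3
    · rintro ⟨⟨y, ⟨hyC, hyB⟩, rfl⟩, h2⟩
      refine ⟨?_, h2⟩
      have hy : y ∈ ball (0 : Fin n → ℝ) 1 := by
        by_contra hy
        have hsph : y ∈ sphere (0 : Fin n → ℝ) 1 := by
          rw [mem_sphere]
          rw [mem_closedBall] at hyB
          rw [mem_ball, not_lt] at hy
          exact le_antisymm hyB hy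
        have h4 : e y ∈ e '' ball 0 1 := by
          have := e.image_source_eq_target
          rw [hs] at this
          rw [this]; exact h2
        exact (Set.disjoint_left.mp hd) ⟨y, hsph, rfl⟩ h4
      rw [← hs] at hy
      show e.symm (e y) ∈ C
      rw [e.left_inv hy]
      exact hyC

/-- cells of the Klein bottle: one vertex, two edges, one face -/
inductive kcell : ℕ → Type
  | v : kcell 0
  | a : kcell 1
  | b : kcell 1
  | f : kcell 2

/-- parametrisation of the cells in the plane -/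
noncomputable def psi : (n : ℕ) → kcell n → (Fin n → ℝ) → ℝ × ℝ
  | _, .v => fun _ => (0, 0)
  | _, .a => fun x => ((x 0 + 1) / 2, 0)
  | _, .b => fun x => (0, (x 0 + 1) / 2)
  | _, .f => fun x => ((x 0 + 1) / 2, (x 1 + 1) / 2)

theorem psi_cont : ∀ (n : ℕ) (c : kcell n), Continuous (psi n c)
  | _, .v => continuous_const
  | _, .a => by
    show Continuous fun x : Fin 1 → ℝ => ((x 0 + 1) / 2, (0 : ℝ))
    fun_prop
  | _, .b => by
    show Continuous fun x : Fin 1 → ℝ => ((0 : ℝ), (x 0 + 1) / 2)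
    fun_prop
  | _, .f => by
    show Continuous fun x : Fin 2 → ℝ => ((x 0 + 1) / 2, (x 1 + 1) / 2)
    fun_prop

theorem coord_ball {n : ℕ} {x : Fin n → ℝ} (hx : x ∈ ball (0 : Fin n → ℝ) 1) (i : Fin n) :
    0 < (x i + 1) / 2 ∧ (x i + 1) / 2 < 1 := by
  rw [mem_ball, dist_zero_right] at hx
  have h := (norm_le_pi_norm x i).trans_lt hx
  rw [Real.norm_eq_abs, abs_lt] at h
  constructor <;> linarith [h.1, h.2]

theorem coord_closedBall {n : ℕ} {x : Fin n → ℝ} (hx : x ∈ closedBall (0 : Fin n → ℝ) 1)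
    (i : Fin n) : 0 ≤ (x i + 1) / 2 ∧ (x i + 1) / 2 ≤ 1 := by
  rw [mem_closedBall, dist_zero_right] at hx
  have h := (norm_le_pi_norm x i).trans hx
  rw [Real.norm_eq_abs, abs_le] at h
  constructor <;> linarith [h.1, h.2]

theorem coord_sphere {n : ℕ} {x : Fin n → ℝ} (hx : x ∈ sphere (0 : Fin n → ℝ) 1) :
    ∃ i, (x i + 1) / 2 = 0 ∨ (x i + 1) / 2 = 1 := by
  rw [mem_sphere, dist_zero_right] at hx
  by_contra hcon
  push Not at hcon
  have hle : ∀ i, ‖x i‖ ≤ 1 := fun i => (norm_le_pi_norm x i).trans hx.le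
  have hlt : ‖x‖ < 1 := by
    rw [pi_norm_lt_iff one_pos]
    intro i
    refine lt_of_le_of_ne (hle i) ?_
    intro h
    rw [Real.norm_eq_abs] at h
    rcases (abs_eq zero_le_one).mp h with h1 | h1
    · exact (hcon i).2 (by rw [h1]; norm_num)
    · exact (hcon i).1 (by rw [h1]; norm_num)
  linarith

theorem psi_inj : ∀ (n : ℕ) (c : kcell n), InjOn (fun x => pr (psi n c x)) (ball 0 1)
  | _, .v => fun x _ y _ _ => Subsingleton.elim _ _
  | _, .a => by
    intro x hx y hy h
    have hx' := coord_ball hx 0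
    have hy' := coord_ball hy 0
    have h1 := (pr_inj (by rw [abs_lt]; constructor <;> linarith) (by simp) h).1
    ext i
    have hi : i = 0 := Subsingleton.elim _ _
    rw [hi]
    linarith
  | _, .b => by
    intro x hx y hy h
    have hx' := coord_ball hx 0
    have hy' := coord_ball hy 0
    have h1 := (pr_inj (by simp) (by rw [abs_lt]; constructor <;> linarith) h).2
    ext i
    have hi : i = 0 := Subsingleton.elim _ _
    rw [hi]
    linarith
  | _, .f => by
    intro x hx y hy h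
    have hx0 := coord_ball hx 0
    have hy0 := coord_ball hy 0
    have hx1 := coord_ball hx 1
    have hy1 := coord_ball hy 1
    have h1 := pr_inj (by rw [abs_lt]; constructor <;> linarith)
      (by rw [abs_lt]; constructor <;> linarith) h
    ext i
    fin_cases i
    · show x 0 = y 0
      linarith [h1.1]
    · show x 1 = y 1
      linarith [h1.2]

/-- characteristic maps -/
noncomputable def kmap (n : ℕ) (c : kcell n) : PartialEquiv (Fin n → ℝ) KB :=
  (psi_inj n c).toPartialEquiv _ _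

theorem kmap_apply (n : ℕ) (c : kcell n) (x : Fin n → ℝ) : kmap n c x = pr (psi n c x) := rfl

theorem kmap_source (n : ℕ) (c : kcell n) : (kmap n c).source = ball 0 1 := rfl

theorem kmap_cont (n : ℕ) (c : kcell n) : Continuous (kmap n c) :=
  pr_continuous.comp (psi_cont n c)

/-- the cell lies over integral first coordinates -/
def tu : (n : ℕ) → kcell n → Bool
  | _, .v => true
  | _, .a => false
  | _, .b => true
  | _, .f => false

/-- the cell lies over integral second coordinates -/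
def tv : (n : ℕ) → kcell n → Bool
  | _, .v => true
  | _, .a => true
  | _, .b => false
  | _, .f => false

/-- the type of a point of an open cell -/
theorem type_ball : ∀ (n : ℕ) (c : kcell n) (x : Fin n → ℝ), x ∈ ball (0 : Fin n → ℝ) 1 →
    ((iu (kmap n c x) ↔ tu n c = true) ∧ (iv (kmap n c x) ↔ tv n c = true))
  | _, .v => by
    intro x _
    rw [kmap_apply, iu_pr, iv_pr]
    exact ⟨⟨fun _ => rfl, fun _ => ⟨0, by simp [psi]⟩⟩, ⟨fun _ => rfl, fun _ => ⟨0, by simp [psi]⟩⟩⟩
  | _, .a => by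
    intro x hx
    have h := coord_ball hx 0
    rw [kmap_apply, iu_pr, iv_pr]
    exact ⟨⟨fun h' => absurd h' (not_int_of_mem h.1 h.2), fun h' => absurd h' (by simp [tu])⟩,
      ⟨fun _ => rfl, fun _ => ⟨0, by simp [psi]⟩⟩⟩
  | _, .b => by
    intro x hx
    have h := coord_ball hx 0
    rw [kmap_apply, iu_pr, iv_pr]
    exact ⟨⟨fun _ => rfl, fun _ => ⟨0, by simp [psi]⟩⟩,
      ⟨fun h' => absurd h' (not_int_of_mem h.1 h.2), fun h' => absurd h' (by simp [tv])⟩⟩
  | _, .f => by
    intro x hx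
    have h0 := coord_ball hx 0
    have h1 := coord_ball hx 1
    rw [kmap_apply, iu_pr, iv_pr]
    exact ⟨⟨fun h' => absurd h' (not_int_of_mem h0.1 h0.2), fun h' => absurd h' (by simp [tu])⟩,
      ⟨fun h' => absurd h' (not_int_of_mem h1.1 h1.2), fun h' => absurd h' (by simp [tv])⟩⟩

theorem sphere_disj : ∀ (n : ℕ) (c : kcell n),
    Disjoint (kmap n c '' sphere 0 1) (kmap n c '' ball 0 1)
  | _, .v => by
    rw [Set.disjoint_left]
    rintro _ ⟨x, hx, rfl⟩ _
    obtain ⟨i, _⟩ := coord_sphere hx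
    exact i.elim0
  | _, .a => by
    rw [Set.disjoint_left]
    rintro _ ⟨x, hx, rfl⟩ ⟨y, hy, h⟩
    obtain ⟨i, hi⟩ := coord_sphere hx
    obtain rfl : i = 0 := Subsingleton.elim _ _
    have h1 : iu (kmap 1 .a x) := by
      rw [kmap_apply, iu_pr]
      rcases hi with hi | hi
      · exact ⟨0, by simpa [psi] using hi⟩
      · exact ⟨1, by simpa [psi] using hi⟩
    rw [← h, kmap_apply, iu_pr] at h1
    exact not_int_of_mem (coord_ball hy 0).1 (coord_ball hy 0).2 h1
  | _, .b => by
    rw [Set.disjoint_left]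
    rintro _ ⟨x, hx, rfl⟩ ⟨y, hy, h⟩
    obtain ⟨i, hi⟩ := coord_sphere hx
    obtain rfl : i = 0 := Subsingleton.elim _ _
    have h1 : iv (kmap 1 .b x) := by
      rw [kmap_apply, iv_pr]
      rcases hi with hi | hi
      · exact ⟨0, by simpa [psi] using hi⟩
      · exact ⟨1, by simpa [psi] using hi⟩
    rw [← h, kmap_apply, iv_pr] at h1
    exact not_int_of_mem (coord_ball hy 0).1 (coord_ball hy 0).2 h1
  | _, .f => by
    rw [Set.disjoint_left]
    rintro _ ⟨x, hx, rfl⟩ ⟨y, hy, h⟩
    obtain ⟨i, hi⟩ := coord_sphere hx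
    have hi2 : i = 0 ∨ i = 1 := by
      fin_cases i
      · exact Or.inl rfl
      · exact Or.inr rfl
    rcases hi2 with rfl | rfl
    · have h1 : iu (kmap 2 .f x) := by
        rw [kmap_apply, iu_pr]
        rcases hi with hi | hi
        · exact ⟨0, by simpa [psi] using hi⟩
        · exact ⟨1, by simpa [psi] using hi⟩
      rw [← h, kmap_apply, iu_pr] at h1
      exact not_int_of_mem (coord_ball hy 0).1 (coord_ball hy 0).2 h1
    · have h1 : iv (kmap 2 .f x) := by
        rw [kmap_apply, iv_pr]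
        rcases hi with hi | hi
        · exact ⟨0, by simpa [psi] using hi⟩
        · exact ⟨1, by simpa [psi] using hi⟩
      rw [← h, kmap_apply, iv_pr] at h1
      exact not_int_of_mem (coord_ball hy 1).1 (coord_ball hy 1).2 h1

theorem cell_ext : ∀ (n : ℕ) (c : kcell n) (m : ℕ) (d : kcell m), tu n c = tu m d →
    tv n c = tv m d → (⟨n, c⟩ : Σ n, kcell n) = ⟨m, d⟩
  | _, .v, _, .v, _, _ => rfl
  | _, .v, _, .a, h, _ => by simp [tu] at h
  | _, .v, _, .b, _, h => by simp [tv] at h
  | _, .v, _, .f, h, _ => by simp [tu] at h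
  | _, .a, _, .v, h, _ => by simp [tu] at h
  | _, .a, _, .a, _, _ => rfl
  | _, .a, _, .b, h, _ => by simp [tu] at h
  | _, .a, _, .f, _, h => by simp [tv] at h
  | _, .b, _, .v, _, h => by simp [tv] at h
  | _, .b, _, .a, h, _ => by simp [tu] at h
  | _, .b, _, .b, _, _ => rfl
  | _, .b, _, .f, h, _ => by simp [tu] at h
  | _, .f, _, .v, h, _ => by simp [tu] at h
  | _, .f, _, .a, _, h => by simp [tv] at h
  | _, .f, _, .b, h, _ => by simp [tu] at h
  | _, .f, _, .f, _, _ => rfl

theorem pw_disj : (univ : Set (Σ n, kcell n)).PairwiseDisjoint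
    (fun ni ↦ kmap ni.1 ni.2 '' ball 0 1) := by
  rintro ⟨n, c⟩ _ ⟨m, d⟩ _ hne
  show Disjoint _ _
  rw [Set.disjoint_left]
  rintro _ ⟨x, hx, rfl⟩ ⟨y, hy, h⟩
  apply hne
  have h1 := type_ball n c x hx
  have h2 := type_ball m d y hy
  simp only at h
  rw [h] at h2
  have h3 := h1.1.symm.trans h2.1
  have h4 := h1.2.symm.trans h2.2
  exact cell_ext n c m d (Bool.eq_iff_iff.mpr h3) (Bool.eq_iff_iff.mpr h4)

theorem mem_cell0 : pr (0, 0) ∈ kmap 0 .v '' closedBall 0 1 :=
  ⟨0, by simp, rfl⟩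

theorem mem_cella {t : ℝ} (h : t ∈ Icc (0 : ℝ) 1) : pr (t, 0) ∈ kmap 1 .a '' closedBall 0 1 := by
  refine ⟨fun _ => 2 * t - 1, ?_, ?_⟩
  · rw [mem_closedBall, dist_zero_right, pi_norm_le_iff_of_nonneg zero_le_one]
    intro _
    rw [Real.norm_eq_abs, abs_le]
    constructor <;> linarith [h.1, h.2]
  · rw [kmap_apply]
    congr 1
    simp [psi]

theorem mem_cellb {t : ℝ} (h : t ∈ Icc (0 : ℝ) 1) : pr (0, t) ∈ kmap 1 .b '' closedBall 0 1 := by
  refine ⟨fun _ => 2 * t - 1, ?_, ?_⟩
  · rw [mem_closedBall, dist_zero_right, pi_norm_le_iff_of_nonneg zero_le_one]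
    intro _
    rw [Real.norm_eq_abs, abs_le]
    constructor <;> linarith [h.1, h.2]
  · rw [kmap_apply]
    congr 1
    simp [psi]

theorem pr_1 (v : ℝ) : pr (1, v) = pr (0, v) := by
  rw [← pr_smul ⟨1, 0⟩ (0, v)]
  congr 1
  ext <;> simp

theorem pr_2 (u : ℝ) : pr (u, 1) = pr (1 - u, 0) := by
  rw [← pr_smul ⟨1, 1⟩ (1 - u, 0)]
  congr 1
  ext
  · rw [KG.smul_fst, KG.sg_odd (by decide)]
    push_cast
    ring
  · simp

theorem kmapsTo : ∀ (n : ℕ) (c : kcell n),
    MapsTo (kmap n c) (sphere 0 1) (⋃ (m < n) (j : kcell m), kmap m j '' closedBall 0 1)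
  | _, .v => by
    intro x hx
    obtain ⟨i, _⟩ := coord_sphere hx
    exact i.elim0
  | _, .a => by
    intro x hx
    obtain ⟨i, hi⟩ := coord_sphere hx
    obtain rfl : i = 0 := Subsingleton.elim _ _
    simp only [mem_iUnion]
    refine ⟨0, by norm_num, .v, ?_⟩
    have : kmap 1 .a x = pr (0, 0) := by
      rw [kmap_apply]
      simp only [psi]
      rcases hi with hi | hi
      · rw [hi]
      · rw [hi]; exact pr_1 0
    rw [this]
    exact mem_cell0
  | _, .b => by
    intro x hx
    obtain ⟨i, hi⟩ := coord_sphere hx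
    obtain rfl : i = 0 := Subsingleton.elim _ _
    simp only [mem_iUnion]
    refine ⟨0, by norm_num, .v, ?_⟩
    have : kmap 1 .b x = pr (0, 0) := by
      rw [kmap_apply]
      simp only [psi]
      rcases hi with hi | hi
      · rw [hi]
      · rw [hi, pr_2, sub_zero]; exact pr_1 0
    rw [this]
    exact mem_cell0
  | _, .f => by
    intro x hx
    obtain ⟨i, hi⟩ := coord_sphere hx
    have hb := coord_closedBall (sphere_subset_closedBall hx)
    simp only [mem_iUnion]
    have hi2 : i = 0 ∨ i = 1 := by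
      fin_cases i
      · exact Or.inl rfl
      · exact Or.inr rfl
    rcases hi2 with rfl | rfl
    · refine ⟨1, by norm_num, .b, ?_⟩
      have : kmap 2 .f x = pr (0, (x 1 + 1) / 2) := by
        rw [kmap_apply]
        simp only [psi]
        rcases hi with hi | hi
        · rw [hi]
        · rw [hi]; exact pr_1 _
      rw [this]
      exact mem_cellb (hb 1)
    · refine ⟨1, by norm_num, .a, ?_⟩
      rcases hi with hi | hi
      · have : kmap 2 .f x = pr ((x 0 + 1) / 2, 0) := by
          rw [kmap_apply]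
          simp only [psi]
          rw [hi]
        rw [this]
        exact mem_cella (hb 0)
      · have : kmap 2 .f x = pr (1 - (x 0 + 1) / 2, 0) := by
          rw [kmap_apply]
          simp only [psi]
          rw [hi]; exact pr_2 _
        rw [this]
        refine mem_cella ⟨?_, ?_⟩ <;> linarith [(hb 0).1, (hb 0).2]

theorem kunion : ⋃ (n : ℕ) (j : kcell n), kmap n j '' closedBall 0 1 = (univ : Set KB) := by
  rw [Set.eq_univ_iff_forall]
  intro x
  obtain ⟨u, hu, v, hv, rfl⟩ := exists_unit x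
  simp only [mem_iUnion]
  refine ⟨2, .f, ![2 * u - 1, 2 * v - 1], ?_, ?_⟩
  · rw [mem_closedBall, dist_zero_right, pi_norm_le_iff_of_nonneg zero_le_one]
    intro i
    rw [Real.norm_eq_abs, abs_le]
    fin_cases i
    · show -1 ≤ 2 * u - 1 ∧ 2 * u - 1 ≤ 1
      constructor <;> linarith [hu.1, hu.2]
    · show -1 ≤ 2 * v - 1 ∧ 2 * v - 1 ≤ 1
      constructor <;> linarith [hv.1, hv.2]
  · rw [kmap_apply]
    congr 1
    simp [psi]

theorem kempty : ∀ᶠ n in Filter.atTop, IsEmpty (kcell n) := by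
  rw [eventually_atTop]
  refine ⟨3, fun n hn => ⟨?_⟩⟩
  rintro (_ | _) <;> omega

theorem kfinite : ∀ n : ℕ, Finite (kcell n) := by
  intro n
  refine Finite.of_injective (fun c : kcell n => (tu n c, tv n c)) ?_
  intro c d h
  have := cell_ext n c n d (congrArg Prod.fst h) (congrArg Prod.snd h)
  simpa using this

/-- The CW structure of the Klein bottle with one vertex, two edges and one face. -/
noncomputable instance kcw : CWComplex (univ : Set KB) :=
  CWComplex.mkFinite univ kcell kmap kempty kfinite kmap_source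
    (fun n c => (kmap_cont n c).continuousOn)
    (fun n c => continuousOn_symm_of _ (kmap_source n c) (kmap_cont n c).continuousOn
      (sphere_disj n c))
    pw_disj kmapsTo kunion

theorem kcw_finite : CWComplex.Finite (univ : Set KB) :=
  CWComplex.finite_mkFinite univ kcell kmap kempty kfinite kmap_source
    (fun n c => (kmap_cont n c).continuousOn)
    (fun n c => continuousOn_symm_of _ (kmap_source n c) (kmap_cont n c).continuousOn
      (sphere_disj n c))
    pw_disj kmapsTo kunion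

end Pool.Agent.H350R3.Klein
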