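import Mathlib
import Pool.Agent.H350R3.Klein.KB

/-!
# The threefold self-covering of the Klein bottle and its effect on the fundamental group
-/

set_option autoImplicit false

namespace Pool.Agent.H350R3.Klein

open Topology Set Filter Metric MulOpposite

/-- `0` for even `j` and `1` for odd `j` -/
def eps (j : ℤ) : ℤ := if Even j then 0 else 1

theorem two_eps (j : ℤ) : 2 * eps j = 1 - KG.sg j := by
  unfold eps
  split_ifs with h
  · rw [KG.sg_even h]; ring
  · rw [KG.sg_odd (Int.not_even_iff_odd.mp h)]; ring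

theorem eps_real (j : ℤ) : (eps j : ℝ) = (1 - (KG.sg j : ℝ)) / 2 := by
  have h := two_eps j
  have h2 : (2 : ℝ) * (eps j : ℝ) = 1 - (KG.sg j : ℝ) := by exact_mod_cast h
  linarith

/-- The endomorphism of the Klein bottle group with `(i, j) ↦ (3 i + eps j, j)`. -/
def phi (g : KG) : KG := ⟨3 * g.i + eps g.j, g.j⟩

/-- The affine map of the plane covering the self-covering. -/
noncomputable def Am : (ℝ × ℝ) ≃ₜ (ℝ × ℝ) where
  toFun e := (3 * e.1 + 1 / 2, e.2)
  invFun e := ((e.1 - 1 / 2) / 3, e.2)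
  left_inv e := by
    ext
    · simp
    · rfl
  right_inv e := by
    ext
    · simp only; ring
    · rfl
  continuous_toFun := by fun_prop
  continuous_invFun := by fun_prop

@[simp] theorem Am_fst (e : ℝ × ℝ) : (Am e).1 = 3 * e.1 + 1 / 2 := rfl
@[simp] theorem Am_snd (e : ℝ × ℝ) : (Am e).2 = e.2 := rfl

theorem Am_smul (g : KG) (e : ℝ × ℝ) : Am (g • e) = phi g • Am e := by
  ext
  · simp only [Am_fst, KG.smul_fst, phi]
    push_cast
    rw [eps_real]
    ring
  · simp [phi]

/-- the self-covering -/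
noncomputable def qq : KB → KB := Quotient.lift (fun e => pr (Am e)) (by
  intro e e' h
  obtain ⟨g, hg⟩ := h
  rw [← hg]
  show pr (Am (g • e')) = pr (Am e')
  rw [Am_smul, pr_smul])

theorem qq_pr (e : ℝ × ℝ) : qq (pr e) = pr (Am e) := rfl

theorem qq_local : IsLocalHomeomorph qq := by
  have h1 : IsLocalHomeomorph (qq ∘ pr) := by
    have : qq ∘ pr = pr ∘ Am := rfl
    rw [this]
    exact pr_cov.isCoveringMap.isLocalHomeomorph.comp Am.isLocalHomeomorph
  have h2 : IsLocalHomeomorph pr := pr_cov.isCoveringMap.isLocalHomeomorph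
  have h3 := IsLocalHomeomorphOn.of_comp_right (s := univ) (h1.isLocalHomeomorphOn)
    h2.isLocalHomeomorphOn
  rw [isLocalHomeomorph_iff_isLocalHomeomorphOn_univ]
  rwa [image_univ, pr_cov.surjective.range_eq] at h3

theorem qq_cov : IsCoveringMap qq := isLocalHomeomorph_iff_isCoveringMap.mp qq_local

theorem pr_shift (u v : ℝ) (k : ℤ) : pr (u + k, v) = pr (u, v) := by
  rw [← pr_smul ⟨k, 0⟩ (u, v)]
  congr 1
  ext
  · simp [add_comm]
  · simp

theorem qq_fiber (x : KB) : Nat.card (qq ⁻¹' {x}) = 3 := by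
  obtain ⟨⟨u, v⟩, rfl⟩ := pr_cov.surjective x
  let y : Fin 3 → qq ⁻¹' {pr (u, v)} := fun k => ⟨pr (Am.symm (u + ((k : ℕ) : ℤ), v)), by
    rw [mem_preimage, qq_pr, Am.apply_symm_apply, mem_singleton_iff]
    exact pr_shift u v _⟩
  have hy : Function.Bijective y := by
    constructor
    · intro k l h
      have h1 : pr (Am.symm (u + ((k : ℕ) : ℤ), v)) = pr (Am.symm (u + ((l : ℕ) : ℤ), v)) :=
        congrArg Subtype.val h
      obtain ⟨g, hg⟩ := pr_eq.mp h1
      have h2 := congrArg Am hg
      rw [Am_smul, Am.apply_symm_apply, Am.apply_symm_apply] at h2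
      have h3 := congrArg Prod.fst h2
      have h4 := congrArg Prod.snd h2
      simp only [KG.smul_fst, KG.smul_snd, phi] at h3 h4
      have hj : g.j = 0 := by
        have : (g.j : ℝ) = 0 := by linarith
        exact_mod_cast this
      rw [hj] at h3
      have he : eps 0 = 0 := by simp [eps]
      rw [he] at h3
      simp only [KG.sg_zero] at h3
      push_cast at h3
      have h5 : ((k : ℕ) : ℝ) = 3 * (g.i : ℝ) + ((l : ℕ) : ℝ) := by linarith
      have h6 : ((k : ℕ) : ℤ) = 3 * g.i + ((l : ℕ) : ℤ) := by exact_mod_cast h5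
      have hk := k.2
      have hl := l.2
      ext
      omega
    · rintro ⟨y', hy'⟩
      obtain ⟨w, rfl⟩ := pr_cov.surjective y'
      rw [mem_preimage, qq_pr, mem_singleton_iff] at hy'
      obtain ⟨g, hg⟩ := pr_eq.mp hy'
      -- choose the residue
      let t : ℤ := KG.sg g.j * (g.i - eps g.j)
      have ht0 : 0 ≤ t % 3 := Int.emod_nonneg _ (by norm_num)
      have ht3 : t % 3 < 3 := Int.emod_lt_of_pos _ (by norm_num)
      refine ⟨⟨(t % 3).toNat, by omega⟩, ?_⟩
      apply Subtype.ext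
      show pr (Am.symm (u + (((t % 3).toNat : ℕ) : ℤ), v)) = pr w
      rw [Int.toNat_of_nonneg ht0]
      symm
      rw [pr_eq]
      have hdvd : (3 : ℤ) ∣ g.i - eps g.j - KG.sg g.j * (t % 3) := by
        have h1 : g.i - eps g.j = KG.sg g.j * t := by
          simp only [t]
          rw [← mul_assoc, KG.sg_mul_self, one_mul]
        rw [h1, ← mul_sub]
        exact Dvd.dvd.mul_left (Int.dvd_self_sub_emod) _
      obtain ⟨m, hm⟩ := hdvd
      refine ⟨⟨m, g.j⟩, ?_⟩
      apply Am.injective
      rw [Am_smul, Am.apply_symm_apply, hg]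
      ext
      · simp only [KG.smul_fst, phi]
        have : (g.i : ℝ) - eps g.j - KG.sg g.j * ((t % 3 : ℤ) : ℝ) = 3 * m := by exact_mod_cast hm
        push_cast at this ⊢
        linarith
      · simp [phi]
  rw [← Nat.card_congr (Equiv.ofBijective y hy), Nat.card_eq_fintype_card, Fintype.card_fin]

/-- base point upstairs -/
noncomputable def e0 : ℝ × ℝ := (-1 / 4, 0)

theorem Am_e0 : Am e0 = e0 := by
  ext
  · simp only [Am_fst, e0]; norm_num
  · rfl

/-- base point -/
noncomputable def x0 : KB := pr e0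

theorem qq_x0 : qq x0 = x0 := by
  rw [x0, qq_pr, Am_e0]

noncomputable def qqC : C(KB, KB) := ⟨qq, qq_local.continuous⟩

theorem qqC_x0 : qqC x0 = x0 := qq_x0

/-- the induced endomorphism of the fundamental group -/
noncomputable def hs : FundamentalGroup KB x0 →* FundamentalGroup KB x0 :=
  FundamentalGroup.mapOfEq qqC qqC_x0

/-- base point in the fibre -/
noncomputable def be : pr ⁻¹' {x0} := ⟨e0, rfl⟩

theorem be_val : (be : ℝ × ℝ) = e0 := rfl

noncomputable def Psi : FundamentalGroup KB x0 ≃* KGᵐᵒᵖ :=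
  pr_cov.fundamentalGroupEquiv be

theorem Psi_spec (γ : FundamentalGroup KB x0) :
    (Psi γ).unop • e0 = (pr_cov.isCoveringMap.monodromy γ be : ℝ × ℝ) :=
  pr_cov.unop_fundamentalGroupToMulOpposite_smul

theorem Psi_eq {γ : FundamentalGroup KB x0} {g : KG}
    (h : g • e0 = (pr_cov.isCoveringMap.monodromy γ be : ℝ × ℝ)) : (Psi γ).unop = g := by
  have h1 : Psi γ = op g := (pr_cov.fundamentalGroupToMulOpposite_apply_eq_Iff (e := be)).mpr h
  rw [h1, MulOpposite.unop_op]

theorem Psi_hs (γ : FundamentalGroup KB x0) : (Psi (hs γ)).unop = phi (Psi γ).unop := by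
  apply Psi_eq
  have h1 := Psi_spec γ
  have h2 : phi (Psi γ).unop • e0 = Am (pr_cov.isCoveringMap.monodromy γ be : ℝ × ℝ) := by
    rw [← h1, Am_smul, Am_e0]
  rw [h2]
  induction γ using Quotient.inductionOn with
  | _ γ =>
    have cov := pr_cov.isCoveringMap
    -- the lift of `γ`
    have hγ0 : γ 0 = pr e0 := γ.source
    have hq : hs (Quotient.mk _ γ) = Quotient.mk _ ((γ.map qqC.continuous).cast qqC_x0.symm qqC_x0.symm) := by
      exact FundamentalGroup.mapOfEq_apply qqC qqC_x0 _
    rw [hq]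
    show Am (cov.liftPath (γ : C(unitInterval, KB)) e0 hγ0 1) =
      cov.liftPath ((γ.map qqC.continuous).cast qqC_x0.symm qqC_x0.symm : C(unitInterval, KB)) e0 _ 1
    have key : (⟨Am, Am.continuous⟩ : C(ℝ × ℝ, ℝ × ℝ)).comp (cov.liftPath (γ : C(unitInterval, KB)) e0 hγ0) =
      cov.liftPath ((γ.map qqC.continuous).cast qqC_x0.symm qqC_x0.symm : C(unitInterval, KB)) e0
        (by
          show qq (γ 0) = pr e0
          rw [hγ0, qq_pr, Am_e0]) := by
      rw [cov.eq_liftPath_iff']
      refine ⟨?_, ?_⟩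
      · funext t
        show pr (Am (cov.liftPath (γ : C(unitInterval, KB)) e0 hγ0 t)) = qq (γ t)
        rw [← qq_pr]
        congr 1
        exact congrFun (cov.liftPath_lifts (γ : C(unitInterval, KB)) e0 hγ0) t
      · show Am (cov.liftPath (γ : C(unitInterval, KB)) e0 hγ0 0) = e0
        rw [cov.liftPath_zero, Am_e0]
    rw [← key]
    rfl

end Pool.Agent.H350R3.Klein
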