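import Mathlib
import Pool.Agent.H350R3.Klein.Defs
import Pool.Agent.H350R3.Klein.SC
import Pool.Agent.H350R3.Klein.NoDom

set_option autoImplicit false

namespace Pool.Agent.H350R3.Klein

open Topology Set Filter Metric MulOpposite

/-- The Klein bottle with its threefold self-covering. -/
noncomputable def kleinSelf : SelfCovering where
  X := KB
  X' := KB
  q := qqC
  isCovering := qq_cov
  degree := 3
  one_lt_degree := by norm_num
  card_fiber := qq_fiber
  h := ContinuousMap.HomotopyEquiv.refl KB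
  x := x0
  q_h_x := qq_x0

theorem hsharp_eq : kleinSelf.hsharp = hs := rfl

/-- the invariant multiplied by three -/
def tau (g : KG) : ℤ := 2 * g.i + eps g.j

theorem tau_phi (g : KG) : tau (phi g) = 3 * tau g := by
  simp only [tau, phi]; ring

theorem tau_iter (g : KG) (k : ℕ) : tau (phi^[k] g) = 3 ^ k * tau g := by
  induction k with
  | zero => simp
  | succ k ih => rw [Function.iterate_succ_apply', tau_phi, ih]; ring

/-- the induced endomorphism as an element of the monoid of endomorphisms -/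
noncomputable def hE : Monoid.End (FundamentalGroup KB x0) := hs

theorem hE_apply (γ : FundamentalGroup KB x0) : hE γ = hs γ := rfl

theorem hs_pow (γ : FundamentalGroup KB x0) (k : ℕ) :
    (Psi ((hE ^ k) γ)).unop = phi^[k] (Psi γ).unop := by
  induction k with
  | zero => rfl
  | succ k ih =>
    rw [Function.iterate_succ_apply', ← ih, ← Psi_hs, pow_succ']
    rfl

/-- the intersection of the images -/
noncomputable def GG : Subgroup (FundamentalGroup KB x0) :=
  ⨅ k : ℕ, MonoidHom.range (hE ^ (k + 1))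

theorem G_eq : kleinSelf.G = GG := rfl

theorem mem_GG (γ : FundamentalGroup KB x0) :
    γ ∈ GG ↔ ∀ k : ℕ, ∃ δ, (hE ^ (k + 1)) δ = γ := by
  unfold GG
  rw [Subgroup.mem_iInf]
  rfl

theorem mem_G_iff (γ : FundamentalGroup KB x0) :
    γ ∈ GG ↔ (Psi γ).unop.i = 0 ∧ Even (Psi γ).unop.j := by
  rw [mem_GG]
  constructor
  · intro h
    set g := (Psi γ).unop with hg
    have hdiv : ∀ k : ℕ, (3 : ℤ) ^ (k + 1) ∣ tau g := by
      intro k
      obtain ⟨δ, hδ⟩ := h k
      refine ⟨tau (Psi δ).unop, ?_⟩
      rw [← tau_iter, ← hs_pow, hδ]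
    have h0 : tau g = 0 := by
      by_contra hne
      have h1 := hdiv (tau g).natAbs
      have h2 := Int.natAbs_dvd_natAbs.mpr h1
      have h3 := Nat.le_of_dvd (Int.natAbs_pos.mpr hne) h2
      rw [Int.natAbs_pow] at h3
      have h4 : (tau g).natAbs < 3 ^ (tau g).natAbs := Nat.lt_pow_self (by norm_num)
      have h5 : 3 ^ (tau g).natAbs ≤ 3 ^ ((tau g).natAbs + 1) :=
        Nat.pow_le_pow_right (by norm_num) (Nat.le_succ _)
      have h6 : (3 : ℤ).natAbs = 3 := rfl
      rw [h6] at h3
      omega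
    unfold tau eps at h0
    split_ifs at h0 with he
    · exact ⟨by omega, he⟩
    · omega
  · rintro ⟨hi, hj⟩ k
    have hfix : hs γ = γ := by
      apply Psi.injective
      apply MulOpposite.unop_injective
      rw [Psi_hs]
      ext
      · simp [phi, hi, eps, hj]
      · simp [phi]
    refine ⟨γ, ?_⟩
    have : ∀ k : ℕ, (hE ^ k) γ = γ := by
      intro k
      induction k with
      | zero => rfl
      | succ k ih =>
        rw [pow_succ']
        show hE ((hE ^ k) γ) = γ
        rw [ih]
        exact hfix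
    exact this _

theorem GG_normal : GG.Normal := by
  constructor
  intro γ hγ δ
  rw [mem_G_iff] at hγ ⊢
  have hc : (Psi (δ * γ * δ⁻¹)).unop = (Psi γ).unop := by
    rw [map_mul, map_mul, map_inv, MulOpposite.unop_mul, MulOpposite.unop_mul, MulOpposite.unop_inv]
    rw [inv_mul_eq_iff_eq_mul]
    ext
    · simp [hγ.1, KG.sg_even hγ.2]
    · simp [add_comm]
  rw [hc]
  exact hγ

noncomputable def G_equiv : GG ≃* Multiplicative ℤ where
  toFun γ := Multiplicative.ofAdd ((Psi γ.1).unop.j / 2)
  invFun n := ⟨Psi.symm (op ⟨0, 2 * Multiplicative.toAdd n⟩), by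
    rw [mem_G_iff, MulEquiv.apply_symm_apply]
    exact ⟨rfl, even_two_mul _⟩⟩
  left_inv γ := by
    have h := (mem_G_iff γ.1).mp γ.2
    apply Subtype.ext
    apply Psi.injective
    apply MulOpposite.unop_injective
    simp only [MulEquiv.apply_symm_apply, MulOpposite.unop_op, toAdd_ofAdd]
    ext
    · exact h.1.symm
    · simp only
      exact Int.two_mul_ediv_two_of_even h.2
  right_inv n := by
    simp only [MulEquiv.apply_symm_apply, MulOpposite.unop_op]
    rw [Int.mul_ediv_cancel_left _ (by norm_num : (2 : ℤ) ≠ 0)]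
    rfl
  map_mul' γ δ := by
    have h1 := (mem_G_iff γ.1).mp γ.2
    have h2 := (mem_G_iff δ.1).mp δ.2
    rw [← ofAdd_add]
    congr 1
    rw [Subgroup.coe_mul, map_mul, MulOpposite.unop_mul, KG.mul_j,
      Int.add_ediv_of_dvd_left h2.2.two_dvd, add_comm]

theorem GG_fp : Group.IsFinitelyPresented GG :=
  Group.IsFinitelyPresented.equiv G_equiv.symm

/-- the sign of an element of the fundamental group -/
noncomputable def sgn : FundamentalGroup KB x0 →* ℤˣ where
  toFun γ := Int.negOnePow (Psi γ).unop.j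
  map_one' := by
    rw [map_one]; rfl
  map_mul' γ δ := by
    rw [map_mul, MulOpposite.unop_mul, KG.mul_j, Int.negOnePow_add, mul_comm]

/-- the loop `b` -/
noncomputable def bb : FundamentalGroup KB x0 := Psi.symm (op ⟨0, 1⟩)

theorem Psi_bb : (Psi bb).unop = ⟨0, 1⟩ := by
  unfold bb
  rw [MulEquiv.apply_symm_apply, MulOpposite.unop_op]

theorem sgn_bb : sgn bb = -1 := by
  show Int.negOnePow (Psi bb).unop.j = -1
  rw [Psi_bb]
  rfl

theorem bb_sq : bb * bb ∈ GG := by
  rw [mem_G_iff]
  have h : (Psi (bb * bb)).unop = ⟨0, 2⟩ := by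
    rw [map_mul, MulOpposite.unop_mul, Psi_bb]
    ext
    · simp
    · simp
  rw [h]
  exact ⟨rfl, ⟨1, rfl⟩⟩

theorem bb_not : bb ∉ GG := by
  rw [mem_G_iff, Psi_bb]
  rintro ⟨-, h⟩
  exact absurd h (by decide)

theorem sgn_G {γ : FundamentalGroup KB x0} (h : γ ∈ GG) : sgn γ = 1 := by
  rw [mem_G_iff] at h
  exact Int.negOnePow_even _ h.2

theorem compact_of_finite {K : Type*} [TopologicalSpace K] [T2Space K] [CWComplex (univ : Set K)]
    (h : CWComplex.Finite (univ : Set K)) : CompactSpace K := by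
  constructor
  have hfin := RelCWComplex.finite_cells_of_finite (finite := h)
  have hU : (univ : Set K) = ⋃ c : Σ n, RelCWComplex.cell (univ : Set K) n,
      RelCWComplex.closedCell c.1 c.2 := by
    have h1 := Topology.CWComplex.union (C := (univ : Set K))
    refine (Set.eq_univ_of_forall fun x => ?_).symm
    have hx := h1.symm.subset (mem_univ x)
    simp only [mem_iUnion] at hx ⊢
    obtain ⟨n, j, hj⟩ := hx
    exact ⟨⟨n, j⟩, hj⟩
  rw [hU]
  exact isCompact_iUnion fun c => RelCWComplex.isCompact_closedCell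

universe u v w

theorem no_dom [hN : GG.Normal] (Y : Type u) [TopologicalSpace Y]
    (hY : IsEilenbergMacLane.{u, 0, w} (FundamentalGroup KB x0 ⧸ GG) Y) :
    ¬ FinitelyDominated.{u, v} Y := by
  rintro ⟨K, _, _, _, hfin, i, r, hir⟩
  obtain ⟨E, _, _, p, hE, hp⟩ := hY
  have := compact_of_finite hfin
  have := hE
  refine not_dominated hp (QuotientGroup.mk bb) ?_
    (QuotientGroup.lift GG sgn fun γ hγ => sgn_G hγ) ?_ i r hir
  · rw [← QuotientGroup.mk_mul, QuotientGroup.eq_one_iff]
    exact bb_sq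
  · exact sgn_bb

theorem torsion_Q [hN : GG.Normal] :
    ∃ s : FundamentalGroup KB x0 ⧸ GG, s ≠ 1 ∧ s * s = 1 := by
  refine ⟨(QuotientGroup.mk bb : FundamentalGroup KB x0 ⧸ GG), ?_, ?_⟩
  · intro h
    exact bb_not ((QuotientGroup.eq_one_iff bb).mp h)
  · rw [← QuotientGroup.mk_mul, QuotientGroup.eq_one_iff]
    exact bb_sq

end Pool.Agent.H350R3.Klein
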